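import Pool.Agent.H642R3.Hom.Syntax

set_option autoImplicit false

/-!
# A Kripke-type semantics: algebras with an endomorphism

An algebra with an endomorphism `t` is a presheaf (variable set) on the one-object category `ℕ`;
equivalently it is a Kripke model over the order `ℕ` all of whose stages are equal.  We prove
soundness of the calculus `Der` for this semantics.
-/

namespace Pool.Agent.H642R3.Hom

variable {σ : Signature}

/-- An algebra for `σ` with an endomorphism. -/
structure Alg (σ : Signature) where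
  X : σ.Srt → Type
  fn : (f : σ.Fn) → ((i : Fin (σ.arity f)) → X (σ.dom f i)) → X (σ.cod f)
  t : (A : σ.Srt) → X A → X A
  t_fn : ∀ (f : σ.Fn) (a : (i : Fin (σ.arity f)) → X (σ.dom f i)),
    t _ (fn f a) = fn f (fun i => t _ (a i))

namespace Alg

variable (M : Alg σ)

/-- environments -/
abbrev Env (Γ : List σ.Srt) : Type := (A : σ.Srt) → Var Γ A → M.X A

/-- value of a term -/
def eval {Γ : List σ.Srt} (e : M.Env Γ) : {A : σ.Srt} → Tm σ Γ A → M.X A
  | _, .var x => e _ x
  | _, .app f args => M.fn f (fun i => eval e (args i))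

/-- moving an environment `k` steps -/
def mv {Γ : List σ.Srt} (k : ℕ) (e : M.Env Γ) : M.Env Γ := fun A x => (M.t A)^[k] (e A x)

/-- extension of an environment -/
def cons {Γ : List σ.Srt} {B : σ.Srt} (b : M.X B) (e : M.Env Γ) : M.Env (B :: Γ)
  | _, .zero => b
  | _, .succ x => e _ x

/-- forcing -/
def force : {Γ : List σ.Srt} → Fm σ Γ → M.Env Γ → Prop
  | _, .top, _ => True
  | _, .bot, _ => False
  | _, .eq s t, e => M.eval e s = M.eval e t
  | _, .and φ ψ, e => force φ e ∧ force ψ e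
  | _, .or φ ψ, e => force φ e ∨ force ψ e
  | _, .imp φ ψ, e => ∀ k, force φ (M.mv k e) → force ψ (M.mv k e)
  | _, .all _ φ, e => ∀ k a, force φ (M.cons a (M.mv k e))
  | _, .ex _ φ, e => ∃ a, force φ (M.cons a e)

theorem t_fn_iter (k : ℕ) (f : σ.Fn) (a : (i : Fin (σ.arity f)) → M.X (σ.dom f i)) :
    (M.t _)^[k] (M.fn f a) = M.fn f (fun i => (M.t _)^[k] (a i)) := by
  induction k generalizing a with
  | zero => rfl
  | succ k ih => simp only [Function.iterate_succ, Function.comp, M.t_fn, ih]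

theorem eval_mv {Γ : List σ.Srt} (k : ℕ) (e : M.Env Γ) {A : σ.Srt} (s : Tm σ Γ A) :
    M.eval (M.mv k e) s = (M.t A)^[k] (M.eval e s) := by
  induction s with
  | var x => rfl
  | app f args ih => simp only [eval, ih, t_fn_iter]

theorem mv_mv {Γ : List σ.Srt} (k l : ℕ) (e : M.Env Γ) : M.mv k (M.mv l e) = M.mv (k + l) e := by
  funext A x
  simp only [mv, Function.iterate_add_apply]

theorem mv_zero {Γ : List σ.Srt} (e : M.Env Γ) : M.mv 0 e = e := rfl

theorem mv_cons {Γ : List σ.Srt} {B : σ.Srt} (k : ℕ) (b : M.X B) (e : M.Env Γ) :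
    M.mv k (M.cons b e) = M.cons ((M.t B)^[k] b) (M.mv k e) := by
  funext A x
  cases x <;> rfl

theorem force_mv {Γ : List σ.Srt} (φ : Fm σ Γ) (e : M.Env Γ) (k : ℕ) (h : M.force φ e) :
    M.force φ (M.mv k e) := by
  induction φ with
  | top => trivial
  | bot => exact h
  | eq s t =>
    simp only [force, eval_mv] at h ⊢
    rw [h]
  | and φ ψ ih1 ih2 => exact ⟨ih1 e h.1, ih2 e h.2⟩
  | or φ ψ ih1 ih2 => exact h.imp (ih1 e) (ih2 e)
  | imp φ ψ _ _ =>
    intro l
    rw [mv_mv]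
    exact h _
  | all A φ _ =>
    intro l a
    rw [mv_mv]
    exact h _ _
  | ex A φ ih =>
    obtain ⟨a, ha⟩ := h
    refine ⟨(M.t _)^[k] a, ?_⟩
    rw [← mv_cons]
    exact ih _ ha

theorem eval_ren {Γ Δ : List σ.Srt} (ρ : (A : σ.Srt) → Var Γ A → Var Δ A) (e : M.Env Δ)
    {A : σ.Srt} (s : Tm σ Γ A) : M.eval e (s.ren ρ) = M.eval (fun A x => e A (ρ A x)) s := by
  induction s with
  | var x => rfl
  | app f args ih => simp only [Tm.ren, eval, ih]

/-- environment obtained from a substitution -/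
def subEnv {Γ Δ : List σ.Srt} (θ : Sub σ Γ Δ) (e : M.Env Δ) : M.Env Γ := fun A x => M.eval e (θ A x)

theorem eval_sub {Γ Δ : List σ.Srt} (θ : Sub σ Γ Δ) (e : M.Env Δ)
    {A : σ.Srt} (s : Tm σ Γ A) : M.eval e (s.sub θ) = M.eval (M.subEnv θ e) s := by
  induction s with
  | var x => rfl
  | app f args ih => simp only [Tm.sub, eval, ih]

theorem subEnv_lift {Γ Δ : List σ.Srt} (θ : Sub σ Γ Δ) (e : M.Env Δ) {B : σ.Srt} (b : M.X B) :
    M.subEnv (θ.lift B) (M.cons b e) = M.cons b (M.subEnv θ e) := by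
  funext A x
  cases x with
  | zero => rfl
  | succ x =>
    simp only [subEnv, Sub.lift, cons, eval_ren]

theorem subEnv_mv {Γ Δ : List σ.Srt} (θ : Sub σ Γ Δ) (e : M.Env Δ) (k : ℕ) :
    M.subEnv θ (M.mv k e) = M.mv k (M.subEnv θ e) := by
  funext A x
  simp only [subEnv, mv, ← eval_mv]

theorem force_sub {Γ : List σ.Srt} (φ : Fm σ Γ) {Δ : List σ.Srt} (θ : Sub σ Γ Δ) (e : M.Env Δ) :
    M.force (φ.sub θ) e ↔ M.force φ (M.subEnv θ e) := by
  induction φ generalizing Δ with
  | top => exact Iff.rfl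
  | bot => exact Iff.rfl
  | eq s t => simp only [Fm.sub, force, eval_sub]
  | and φ ψ ih1 ih2 => simp only [Fm.sub, force, ih1, ih2]
  | or φ ψ ih1 ih2 => simp only [Fm.sub, force, ih1, ih2]
  | imp φ ψ ih1 ih2 => simp only [Fm.sub, force, ih1, ih2, subEnv_mv]
  | all A φ ih => simp only [Fm.sub, force, ih, subEnv_lift, subEnv_mv]
  | ex A φ ih => simp only [Fm.sub, force, ih, subEnv_lift]

theorem subEnv_single {Γ : List σ.Srt} {B : σ.Srt} (t : Tm σ Γ B) (e : M.Env Γ) :
    M.subEnv (Sub.single t) e = M.cons (M.eval e t) e := by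
  funext A x
  cases x <;> rfl

theorem force_inst {Γ : List σ.Srt} {B : σ.Srt} (φ : Fm σ (B :: Γ)) (t : Tm σ Γ B) (e : M.Env Γ) :
    M.force (φ.inst t) e ↔ M.force φ (M.cons (M.eval e t) e) := by
  rw [Fm.inst, force_sub, subEnv_single]

theorem force_wk {Γ : List σ.Srt} {B : σ.Srt} (φ : Fm σ Γ) (b : M.X B) (e : M.Env Γ) :
    M.force (φ.wk B) (M.cons b e) ↔ M.force φ e := by
  rw [Fm.wk, force_sub]
  rfl

/-- Soundness. -/
theorem sound {Γ : List σ.Srt} {H : List (Fm σ Γ)} {φ : Fm σ Γ} (h : Der H φ) (e : M.Env Γ)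
    (hH : ∀ χ ∈ H, M.force χ e) : M.force φ e := by
  induction h with
  | hyp h => exact hH _ h
  | topI => trivial
  | botE _ ih => exact (ih e hH).elim
  | andI _ _ ih1 ih2 => exact ⟨ih1 e hH, ih2 e hH⟩
  | andE₁ _ ih => exact (ih e hH).1
  | andE₂ _ ih => exact (ih e hH).2
  | orI₁ _ ih => exact Or.inl (ih e hH)
  | orI₂ _ ih => exact Or.inr (ih e hH)
  | orE _ _ _ ih ih1 ih2 =>
    rcases ih e hH with h | h
    · exact ih1 e (by simpa using ⟨h, hH⟩)
    · exact ih2 e (by simpa using ⟨h, hH⟩)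
  | impI _ ih =>
    intro k hk
    refine ih _ ?_
    intro χ hχ
    rcases List.mem_cons.1 hχ with rfl | hχ
    · exact hk
    · exact M.force_mv _ _ _ (hH _ hχ)
  | impE _ _ ih1 ih2 => exact ih1 e hH 0 (ih2 e hH)
  | allI _ ih =>
    intro k a
    refine ih _ ?_
    intro χ hχ
    obtain ⟨χ', hχ', rfl⟩ := List.mem_map.1 hχ
    exact (M.force_wk _ _ _).2 (M.force_mv _ _ _ (hH _ hχ'))
  | allE _ t ih => exact (M.force_inst _ _ _).2 (ih e hH 0 _)
  | exI t _ ih => exact ⟨_, (M.force_inst _ _ _).1 (ih e hH)⟩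
  | exE _ _ ih1 ih2 =>
    obtain ⟨a, ha⟩ := ih1 e hH
    refine (M.force_wk _ a _).1 (ih2 _ ?_)
    intro χ hχ
    rcases List.mem_cons.1 hχ with rfl | hχ
    · exact ha
    · obtain ⟨χ', hχ', rfl⟩ := List.mem_map.1 hχ
      exact (M.force_wk _ _ _).2 (hH _ hχ')
  | eqI t => exact rfl
  | eqE φ _ _ ih1 ih2 =>
    rw [force_inst]
    have h1 := ih1 e hH
    simp only [force] at h1
    rw [← h1, ← force_inst]
    exact ih2 e hH

/-- Excluded middle holds for sentences. -/
theorem em (ψ : Sentence σ) (e : M.Env []) : M.force (ψ.or ψ.neg) e := by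
  by_cases h : M.force ψ e
  · exact Or.inl h
  · right
    intro k hk
    apply h
    have : M.mv k e = e := by
      funext A x
      cases x
    rw [this] at hk
    exact hk

end Alg

end Pool.Agent.H642R3.Hom
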