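import Mathlib

set_option autoImplicit false

/-!
# Intuitionistic many-sorted first-order logic with equality, in context

Signatures are algebraic (sorts and function symbols, no relation symbols).  Formulas and
derivations carry explicit contexts, so that sorts may be empty.
-/

namespace Pool.Agent.H642R3.Hom

/-- A many-sorted algebraic signature: sorts and function symbols
`f : dom f 0, …, dom f (arity f - 1) → cod f`. -/
structure Signature where
  /-- the sorts -/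
  Srt : Type
  /-- the function symbols -/
  Fn : Type
  /-- number of arguments of a function symbol -/
  arity : Fn → ℕ
  /-- sorts of the arguments -/
  dom : (f : Fn) → Fin (arity f) → Srt
  /-- sort of the value -/
  cod : Fn → Srt

/-- `Var Γ A`: the variables of sort `A` in the context `Γ` (a finite list of sorts). -/
inductive Var {S : Type} : List S → S → Type
  | zero {Γ : List S} {A : S} : Var (A :: Γ) A
  | succ {Γ : List S} {A B : S} (x : Var Γ A) : Var (B :: Γ) A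

/-- `Tm σ Γ A`: the terms of sort `A` in the context `Γ`. -/
inductive Tm (σ : Signature) (Γ : List σ.Srt) : σ.Srt → Type
  | var {A : σ.Srt} (x : Var Γ A) : Tm σ Γ A
  | app (f : σ.Fn) (args : (i : Fin (σ.arity f)) → Tm σ Γ (σ.dom f i)) : Tm σ Γ (σ.cod f)

/-- `Fm σ Γ`: the formulas in the context `Γ`. In `all A φ` and `ex A φ` the bound variable is
the first variable of the context `A :: Γ` of `φ`. -/
inductive Fm (σ : Signature) : List σ.Srt → Type
  | top {Γ : List σ.Srt} : Fm σ Γ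
  | bot {Γ : List σ.Srt} : Fm σ Γ
  | eq {Γ : List σ.Srt} {A : σ.Srt} (s t : Tm σ Γ A) : Fm σ Γ
  | and {Γ : List σ.Srt} (φ ψ : Fm σ Γ) : Fm σ Γ
  | or {Γ : List σ.Srt} (φ ψ : Fm σ Γ) : Fm σ Γ
  | imp {Γ : List σ.Srt} (φ ψ : Fm σ Γ) : Fm σ Γ
  | all {Γ : List σ.Srt} (A : σ.Srt) (φ : Fm σ (A :: Γ)) : Fm σ Γ
  | ex {Γ : List σ.Srt} (A : σ.Srt) (φ : Fm σ (A :: Γ)) : Fm σ Γ

/-- Sentences are formulas in the empty context. -/
abbrev Sentence (σ : Signature) : Type := Fm σ []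

/-- Negation. -/
def Fm.neg {σ : Signature} {Γ : List σ.Srt} (φ : Fm σ Γ) : Fm σ Γ := φ.imp Fm.bot

section subst

variable {σ : Signature}

/-- A substitution of terms in context `Δ` for the variables of `Γ`. -/
abbrev Sub (σ : Signature) (Γ Δ : List σ.Srt) : Type := (A : σ.Srt) → Var Γ A → Tm σ Δ A

/-- Renaming of variables in a term. -/
def Tm.ren {Γ Δ : List σ.Srt} (ρ : (A : σ.Srt) → Var Γ A → Var Δ A) :
    {A : σ.Srt} → Tm σ Γ A → Tm σ Δ A
  | _, .var x => .var (ρ _ x)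
  | _, .app f args => .app f (fun i => (args i).ren ρ)

/-- Substitution in a term. -/
def Tm.sub {Γ Δ : List σ.Srt} (θ : Sub σ Γ Δ) : {A : σ.Srt} → Tm σ Γ A → Tm σ Δ A
  | _, .var x => θ _ x
  | _, .app f args => .app f (fun i => (args i).sub θ)

/-- The substitution `θ` under a binder. -/
def Sub.lift {Γ Δ : List σ.Srt} (θ : Sub σ Γ Δ) (B : σ.Srt) : Sub σ (B :: Γ) (B :: Δ)
  | _, .zero => .var .zero
  | _, .succ x => (θ _ x).ren (fun _ => Var.succ)

/-- Substitution in a formula. -/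
def Fm.sub : {Γ : List σ.Srt} → Fm σ Γ → {Δ : List σ.Srt} → Sub σ Γ Δ → Fm σ Δ
  | _, .top, _, _ => .top
  | _, .bot, _, _ => .bot
  | _, .eq s t, _, θ => .eq (s.sub θ) (t.sub θ)
  | _, .and φ ψ, _, θ => .and (φ.sub θ) (ψ.sub θ)
  | _, .or φ ψ, _, θ => .or (φ.sub θ) (ψ.sub θ)
  | _, .imp φ ψ, _, θ => .imp (φ.sub θ) (ψ.sub θ)
  | _, .all A φ, _, θ => .all A (φ.sub (θ.lift A))
  | _, .ex A φ, _, θ => .ex A (φ.sub (θ.lift A))

/-- The substitution `[t/x]` for the first variable `x`. -/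
def Sub.single {Γ : List σ.Srt} {B : σ.Srt} (t : Tm σ Γ B) : Sub σ (B :: Γ) Γ
  | _, .zero => t
  | _, .succ x => .var x

/-- `φ[t/x]`, where `x` is the first variable of the context of `φ`. -/
def Fm.inst {Γ : List σ.Srt} {B : σ.Srt} (φ : Fm σ (B :: Γ)) (t : Tm σ Γ B) : Fm σ Γ :=
  φ.sub (Sub.single t)

/-- Weakening: `φ` regarded as a formula in the context with one more variable. -/
def Fm.wk {Γ : List σ.Srt} (φ : Fm σ Γ) (B : σ.Srt) : Fm σ (B :: Γ) :=
  φ.sub (fun _ x => .var (.succ x))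

/-- `Der H φ`: the formula `φ` is derivable from the finite list of hypotheses `H` (all in the
context `Γ`) in the natural deduction calculus of intuitionistic first-order logic with
equality, formulated in context. -/
inductive Der : {Γ : List σ.Srt} → List (Fm σ Γ) → Fm σ Γ → Prop
  | hyp {Γ : List σ.Srt} {H : List (Fm σ Γ)} {φ : Fm σ Γ} (h : φ ∈ H) : Der H φ
  | topI {Γ : List σ.Srt} {H : List (Fm σ Γ)} : Der H Fm.top
  | botE {Γ : List σ.Srt} {H : List (Fm σ Γ)} {φ : Fm σ Γ} (h : Der H Fm.bot) : Der H φ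
  | andI {Γ : List σ.Srt} {H : List (Fm σ Γ)} {φ ψ : Fm σ Γ} (h : Der H φ) (h' : Der H ψ) :
      Der H (φ.and ψ)
  | andE₁ {Γ : List σ.Srt} {H : List (Fm σ Γ)} {φ ψ : Fm σ Γ} (h : Der H (φ.and ψ)) : Der H φ
  | andE₂ {Γ : List σ.Srt} {H : List (Fm σ Γ)} {φ ψ : Fm σ Γ} (h : Der H (φ.and ψ)) : Der H ψ
  | orI₁ {Γ : List σ.Srt} {H : List (Fm σ Γ)} {φ ψ : Fm σ Γ} (h : Der H φ) : Der H (φ.or ψ)
  | orI₂ {Γ : List σ.Srt} {H : List (Fm σ Γ)} {φ ψ : Fm σ Γ} (h : Der H ψ) : Der H (φ.or ψ)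
  | orE {Γ : List σ.Srt} {H : List (Fm σ Γ)} {φ ψ χ : Fm σ Γ} (h : Der H (φ.or ψ))
      (h₁ : Der (φ :: H) χ) (h₂ : Der (ψ :: H) χ) : Der H χ
  | impI {Γ : List σ.Srt} {H : List (Fm σ Γ)} {φ ψ : Fm σ Γ} (h : Der (φ :: H) ψ) :
      Der H (φ.imp ψ)
  | impE {Γ : List σ.Srt} {H : List (Fm σ Γ)} {φ ψ : Fm σ Γ} (h : Der H (φ.imp ψ))
      (h' : Der H φ) : Der H ψ
  | allI {Γ : List σ.Srt} {H : List (Fm σ Γ)} {A : σ.Srt} {φ : Fm σ (A :: Γ)}
      (h : Der (H.map (fun χ => χ.wk A)) φ) : Der H (.all A φ)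
  | allE {Γ : List σ.Srt} {H : List (Fm σ Γ)} {A : σ.Srt} {φ : Fm σ (A :: Γ)}
      (h : Der H (.all A φ)) (t : Tm σ Γ A) : Der H (φ.inst t)
  | exI {Γ : List σ.Srt} {H : List (Fm σ Γ)} {A : σ.Srt} {φ : Fm σ (A :: Γ)}
      (t : Tm σ Γ A) (h : Der H (φ.inst t)) : Der H (.ex A φ)
  | exE {Γ : List σ.Srt} {H : List (Fm σ Γ)} {A : σ.Srt} {φ : Fm σ (A :: Γ)} {χ : Fm σ Γ}
      (h : Der H (.ex A φ)) (h' : Der (φ :: H.map (fun χ => χ.wk A)) (χ.wk A)) : Der H χ
  | eqI {Γ : List σ.Srt} {H : List (Fm σ Γ)} {A : σ.Srt} (t : Tm σ Γ A) : Der H (.eq t t)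
  | eqE {Γ : List σ.Srt} {H : List (Fm σ Γ)} {A : σ.Srt} {s t : Tm σ Γ A}
      (φ : Fm σ (A :: Γ)) (h : Der H (.eq s t)) (h' : Der H (φ.inst s)) : Der H (φ.inst t)

end subst

end Pool.Agent.H642R3.Hom
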