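import Mathlib
import Pool.Agent.H642R3.Hom.Syntax

set_option autoImplicit false

/-!
# The homotopical semantics
-/

open CategoryTheory Limits MonoidalCategory CartesianMonoidalCategory Opposite

namespace Pool.Agent.H642R3.Hom

variable {σ : Signature}

/-- A `σ`-structure in simplicial sets: a simplicial set for every sort and a simplicial map
`M(A₁) × ⋯ × M(Aₙ) ⟶ M(B)` for every function symbol `f : A₁ ⋯ Aₙ → B`. -/
structure Str (σ : Signature) where
  /-- the simplicial set `M(A)` -/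
  obj : σ.Srt → SSet.{0}
  /-- the map `M(f)` -/
  fn : (f : σ.Fn) → ((∏ᶜ fun i : Fin (σ.arity f) => obj (σ.dom f i)) ⟶ obj (σ.cod f))

/-- A `σ`-structure in `Kan`: all the `M(A)` are Kan complexes (possibly empty). -/
def Str.IsKan (M : Str σ) : Prop := ∀ A, SSet.KanComplex (M.obj A)

/-- The product `M(A₁) × ⋯ × M(Aₙ)` for a context `A₁, …, Aₙ`. -/
noncomputable def Str.ctx (M : Str σ) : List σ.Srt → SSet.{0}
  | [] => 𝟙_ SSet
  | A :: Γ => M.obj A ⊗ Str.ctx M Γ

/-- The projection `M(A) × M(Γ) ⟶ M(Γ)` which omits the first variable. -/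
noncomputable def Str.proj (M : Str σ) (A : σ.Srt) (Γ : List σ.Srt) : M.ctx (A :: Γ) ⟶ M.ctx Γ :=
  snd (M.obj A) (M.ctx Γ)

/-- The projection to the factor of a variable. -/
noncomputable def Str.var (M : Str σ) :
    {Γ : List σ.Srt} → {A : σ.Srt} → Var Γ A → (M.ctx Γ ⟶ M.obj A)
  | A :: Γ, _, .zero => fst (M.obj A) (M.ctx Γ)
  | A :: Γ, _, .succ x => M.proj A Γ ≫ Str.var M x

/-- The map `M(t) : M(Γ) ⟶ M(A)` of a term. -/
noncomputable def Str.tm (M : Str σ) {Γ : List σ.Srt} :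
    {A : σ.Srt} → Tm σ Γ A → (M.ctx Γ ⟶ M.obj A)
  | _, .var x => M.var x
  | _, .app f args => Pi.lift (fun i => Str.tm M (args i)) ≫ M.fn f

open Simplicial in
/-- The path space `X^I`, the internal hom from `Δ[1]` to `X`. -/
noncomputable def pathSpace (X : SSet.{0}) : SSet.{0} := (ihom (Δ[1] : SSet.{0})).obj X

open Simplicial in
/-- The evaluation `X^I ⟶ X` at the vertex `i` of `Δ[1]`. -/
noncomputable def endpoint (X : SSet.{0}) (i : Fin 2) : pathSpace X ⟶ X :=
  lift (SSet.const (SSet.stdSimplex.obj₀Equiv.symm i)) (𝟙 (pathSpace X)) ≫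
    (ihom.ev (Δ[1] : SSet.{0})).app X

/-- The path space map `X^I ⟶ X × X`. -/
noncomputable def ends (X : SSet.{0}) : pathSpace X ⟶ X ⊗ X := lift (endpoint X 0) (endpoint X 1)

/-- The homotopical interpretation in a structure `M`.  It sends a formula in a context `Γ` to an
object of the slice category over `M(Γ)`, by the clauses of the semantics; the objects are
determined by them up to isomorphism. -/
structure Interpretation (M : Str σ) where
  /-- the object `[φ] ⟶ M(Γ)` -/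
  obj : {Γ : List σ.Srt} → Fm σ Γ → Over (M.ctx Γ)
  /-- `⊤` is the identity of `M(Γ)` -/
  top : ∀ (Γ : List σ.Srt), Nonempty (obj (Fm.top : Fm σ Γ) ≅ Over.mk (𝟙 (M.ctx Γ)))
  /-- `⊥` is the empty simplicial set -/
  bot : ∀ (Γ : List σ.Srt) (n : SimplexCategoryᵒᵖ), IsEmpty ((obj (Fm.bot : Fm σ Γ)).left.obj n)
  /-- `∧` is the product of the slice category -/
  and : ∀ {Γ : List σ.Srt} (φ ψ : Fm σ Γ),
    ∃ (p : obj (φ.and ψ) ⟶ obj φ) (q : obj (φ.and ψ) ⟶ obj ψ),
      Nonempty (IsLimit (BinaryFan.mk p q))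
  /-- `∨` is the coproduct of the slice category -/
  or : ∀ {Γ : List σ.Srt} (φ ψ : Fm σ Γ),
    ∃ (i : obj φ ⟶ obj (φ.or ψ)) (j : obj ψ ⟶ obj (φ.or ψ)),
      Nonempty (IsColimit (BinaryCofan.mk i j))
  /-- `⇒` is the exponential of the slice category: maps `D ⟶ [φ ⇒ ψ]` correspond naturally to
  maps `[φ] × D ⟶ [ψ]` -/
  imp : ∀ {Γ : List σ.Srt} (φ ψ : Fm σ Γ),
    Nonempty (((prod.functor.obj (obj φ)).op ⋙ yoneda.obj (obj ψ)).RepresentableBy
      (obj (φ.imp ψ)))
  /-- `∀` is given by the right adjoint of the pullback `π^*` along the projection `π`: maps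
  `D ⟶ [∀ x, φ]` correspond naturally to maps `π^* D ⟶ [φ]` -/
  all : ∀ {Γ : List σ.Srt} (A : σ.Srt) (φ : Fm σ (A :: Γ)),
    Nonempty (((Over.pullback (M.proj A Γ)).op ⋙ yoneda.obj (obj φ)).RepresentableBy
      (obj (φ.all A)))
  /-- `∃` is given by the left adjoint of the pullback `π^*` along the projection `π`: maps
  `[∃ x, φ] ⟶ D` correspond naturally to maps `[φ] ⟶ π^* D` -/
  ex : ∀ {Γ : List σ.Srt} (A : σ.Srt) (φ : Fm σ (A :: Γ)),
    Nonempty (((Over.pullback (M.proj A Γ)) ⋙ coyoneda.obj (op (obj φ))).CorepresentableBy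
      (obj (φ.ex A)))
  /-- `s = t` is the pullback of the path space map `M(A)^I ⟶ M(A) × M(A)` along
  `⟨M(s), M(t)⟩` -/
  eq : ∀ {Γ : List σ.Srt} {A : σ.Srt} (s t : Tm σ Γ A),
    ∃ h : (obj (Fm.eq s t)).left ⟶ pathSpace (M.obj A),
      IsPullback (obj (Fm.eq s t)).hom h (lift (M.tm s) (M.tm t)) (ends (M.obj A))

/-- The sentence `φ` is true in `M`: the simplicial set `[φ]` is non-empty. -/
def Interpretation.True {M : Str σ} (I : Interpretation M) (φ : Sentence σ) : Prop :=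
  (I.obj φ).left.Nonempty

end Pool.Agent.H642R3.Hom
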