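import Mathlib
import Pool.Agent.H642R3.Hom.Sem

set_option autoImplicit false

open CategoryTheory Limits MonoidalCategory CartesianMonoidalCategory Opposite

namespace Pool.Agent.H642R3.Hom

variable {σ : Signature} {M : Str σ} (I : Interpretation M)

namespace Interpretation

/-- forcing -/
def F {Γ : List σ.Srt} (D : Over (M.ctx Γ)) (φ : Fm σ Γ) : Prop := Nonempty (D ⟶ I.obj φ)

theorem f_all {Γ : List σ.Srt} (D : Over (M.ctx Γ)) (A : σ.Srt) (φ : Fm σ (A :: Γ)) :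
    I.F D (φ.all A) ↔ I.F ((Over.pullback (M.proj A Γ)).obj D) φ := by
  obtain ⟨r⟩ := I.all A φ
  exact ⟨fun ⟨f⟩ => ⟨r.homEquiv f⟩, fun ⟨f⟩ => ⟨r.homEquiv.symm f⟩⟩

theorem f_imp {Γ : List σ.Srt} (D : Over (M.ctx Γ)) (φ ψ : Fm σ Γ) :
    I.F D (φ.imp ψ) ↔ I.F (I.obj φ ⨯ D) ψ := by
  obtain ⟨r⟩ := I.imp φ ψ
  exact ⟨fun ⟨f⟩ => ⟨r.homEquiv f⟩, fun ⟨f⟩ => ⟨r.homEquiv.symm f⟩⟩

theorem f_and {Γ : List σ.Srt} (D : Over (M.ctx Γ)) (φ ψ : Fm σ Γ) :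
    I.F D (φ.and ψ) ↔ I.F D φ ∧ I.F D ψ := by
  obtain ⟨p, q, ⟨h⟩⟩ := I.and φ ψ
  constructor
  · rintro ⟨f⟩
    exact ⟨⟨f ≫ p⟩, ⟨f ≫ q⟩⟩
  · rintro ⟨⟨f⟩, ⟨g⟩⟩
    exact ⟨(BinaryFan.IsLimit.lift' h f g).1⟩

theorem f_eq {Γ : List σ.Srt} (D : Over (M.ctx Γ)) {A : σ.Srt} (s t : Tm σ Γ A) :
    I.F D (Fm.eq s t) ↔ ∃ h : D.left ⟶ pathSpace (M.obj A),
      D.hom ≫ lift (M.tm s) (M.tm t) = h ≫ ends (M.obj A) := by
  obtain ⟨h, hp⟩ := I.eq s t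
  constructor
  · rintro ⟨f⟩
    refine ⟨f.left ≫ h, ?_⟩
    rw [Category.assoc, ← hp.w, ← Category.assoc, Over.w f]
  · rintro ⟨k, hk⟩
    exact ⟨Over.homMk (hp.lift D.hom k hk) (hp.lift_fst _ _ _)⟩

theorem f_ex {Γ : List σ.Srt} (D : Over (M.ctx Γ)) (A : σ.Srt) (φ : Fm σ (A :: Γ)) :
    I.F D (φ.ex A) ↔ ∃ k : D.left ⟶ M.ctx (A :: Γ), k ≫ M.proj A Γ = D.hom ∧
      I.F (Over.mk k) φ := by
  obtain ⟨r⟩ := I.ex A φ
  let adj := Over.mapPullbackAdj (M.proj A Γ)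
  let e : I.obj (φ.ex A) ⟶ (Over.map (M.proj A Γ)).obj (I.obj φ) :=
    r.homEquiv.symm (adj.unit.app (I.obj φ))
  let e' : (Over.map (M.proj A Γ)).obj (I.obj φ) ⟶ I.obj (φ.ex A) :=
    (adj.homEquiv _ _).symm (r.homEquiv (𝟙 _))
  constructor
  · rintro ⟨f⟩
    refine ⟨(f ≫ e).left ≫ (I.obj φ).hom, ?_, ?_⟩
    · have := Over.w (f ≫ e)
      simpa using this
    · exact ⟨Over.homMk (f ≫ e).left rfl⟩
  · rintro ⟨k, hk, ⟨g⟩⟩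
    have h1 : D ⟶ (Over.map (M.proj A Γ)).obj (I.obj φ) := Over.homMk g.left (by
      have := Over.w g
      simp only [Over.mk_hom] at this
      rw [Over.map_obj_hom, ← Category.assoc, this, hk])
    exact ⟨h1 ≫ e'⟩

theorem f_of_hom {Γ : List σ.Srt} {D D' : Over (M.ctx Γ)} (f : D ⟶ D') {φ : Fm σ Γ}
    (h : I.F D' φ) : I.F D φ := by
  obtain ⟨g⟩ := h
  exact ⟨f ≫ g⟩

theorem f_self {Γ : List σ.Srt} (φ : Fm σ Γ) : I.F (I.obj φ) φ := ⟨𝟙 _⟩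

/-- To prove the truth of an implication it is enough to prove that the hypothesis implies
the conclusion at all stages. -/
theorem true_of_force (φ : Sentence σ) (h : I.F (Over.mk (𝟙 (M.ctx []))) φ) : I.True φ := by
  obtain ⟨f⟩ := h
  exact ⟨f.left.app _ (PUnit.unit : (𝟙_ SSet.{0}).obj (op (SimplexCategory.mk 0)))⟩

end Interpretation

end Pool.Agent.H642R3.Hom
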