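import Mathlib
import Pool.Agent.H642R3.Hom.Force

set_option autoImplicit false

open CategoryTheory Limits MonoidalCategory CartesianMonoidalCategory Opposite

namespace Pool.Agent.H642R3.Hom

/-- The two sorts of the signature of the counterexample. -/
inductive TwoSorts : Type
  | base : TwoSorts
  | tot : TwoSorts

/-- The signature with two sorts `base`, `tot` and one function symbol `g : tot → base`. -/
abbrev sig : Signature where
  Srt := TwoSorts
  Fn := Unit
  arity := fun _ => 1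
  dom := fun _ _ => .tot
  cod := fun _ => .base

/-- The term `g(y)`. -/
def gTm {Γ : List TwoSorts} (y : Tm sig Γ TwoSorts.tot) : Tm sig Γ TwoSorts.base :=
  Tm.app (σ := sig) () (fun _ => y)

/-- The hypothesis `∀ x, ∃ y, g(y) = x`. -/
def surjG : Sentence sig :=
  Fm.all TwoSorts.base (Fm.ex TwoSorts.tot
    (Fm.eq (σ := sig) (gTm (.var .zero)) (.var (.succ .zero))))

/-- The conclusion
`∀ x x', ∃ y y', (g(y) = x ∧ g(y') = x') ∧ (x = x' ⇒ y = y')`. -/
def choiceG : Sentence sig :=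
  Fm.all TwoSorts.base (Fm.all TwoSorts.base (Fm.ex TwoSorts.tot (Fm.ex TwoSorts.tot
    (((Fm.eq (σ := sig) (gTm (.var (.succ .zero))) (.var (.succ (.succ (.succ .zero))))).and
      (Fm.eq (σ := sig) (gTm (.var .zero)) (.var (.succ (.succ .zero))))).and
      ((Fm.eq (σ := sig) (A := TwoSorts.base) (.var (.succ (.succ (.succ .zero))))
        (.var (.succ (.succ .zero)))).imp
      (Fm.eq (σ := sig) (A := TwoSorts.tot) (.var (.succ .zero)) (.var .zero)))))))

/-- The sentence of the counterexample: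
`(∀ x, ∃ y, g(y) = x) ⇒ ∀ x x', ∃ y y', (g(y) = x ∧ g(y') = x') ∧ (x = x' ⇒ y = y')`. -/
def acSentence : Sentence sig := surjG.imp choiceG

section maps

variable {σ : Signature} (M : Str σ)

/-- extension of a map to a context -/
noncomputable def Str.cons {X : SSet.{0}} {A : σ.Srt} {Γ : List σ.Srt} (a : X ⟶ M.obj A)
    (g : X ⟶ M.ctx Γ) : X ⟶ M.ctx (A :: Γ) := lift a g

@[reassoc (attr := simp)]
theorem Str.cons_proj {X : SSet.{0}} {A : σ.Srt} {Γ : List σ.Srt} (a : X ⟶ M.obj A)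
    (g : X ⟶ M.ctx Γ) : M.cons a g ≫ M.proj A Γ = g := lift_snd _ _

@[reassoc (attr := simp)]
theorem Str.cons_zero {X : SSet.{0}} {A : σ.Srt} {Γ : List σ.Srt} (a : X ⟶ M.obj A)
    (g : X ⟶ M.ctx Γ) : M.cons a g ≫ M.tm (.var .zero) = a := lift_fst _ _

theorem Str.tm_succ {A B : σ.Srt} {Γ : List σ.Srt} (x : Var Γ B) :
    M.tm (.var (.succ x) : Tm σ (A :: Γ) B) = M.proj A Γ ≫ M.tm (.var x) := rfl

theorem Str.comp_cons {X Y : SSet.{0}} (f : Y ⟶ X) {A : σ.Srt} {Γ : List σ.Srt}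
    (a : X ⟶ M.obj A) (g : X ⟶ M.ctx Γ) : f ≫ M.cons a g = M.cons (f ≫ a) (f ≫ g) :=
  comp_lift _ _ _

theorem Str.hom_nil {X : SSet.{0}} (f g : X ⟶ M.ctx []) : f = g :=
  toUnit_unique (X := X) f g

/-- the map to the empty context -/
noncomputable def Str.nil (X : SSet.{0}) : X ⟶ M.ctx [] := toUnit X

end maps

open Simplicial in
theorem curry_endpoint {X Y : SSet.{0}} (f : (Δ[1] : SSet.{0}) ⊗ X ⟶ Y) (i : Fin 2) :
    (MonoidalClosed.curry f : X ⟶ pathSpace Y) ≫ endpoint Y i =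
      lift (SSet.const (SSet.stdSimplex.obj₀Equiv.symm i)) (𝟙 X) ≫ f := by
  have h1 : (MonoidalClosed.curry f : X ⟶ (ihom (Δ[1] : SSet.{0})).obj Y) ≫
      lift (SSet.const (SSet.stdSimplex.obj₀Equiv.symm i)) (𝟙 ((ihom (Δ[1] : SSet.{0})).obj Y)) =
      lift (SSet.const (SSet.stdSimplex.obj₀Equiv.symm i)) (𝟙 X) ≫
        ((Δ[1] : SSet.{0}) ◁ (MonoidalClosed.curry f : X ⟶ (ihom (Δ[1] : SSet.{0})).obj Y)) := by
    rw [comp_lift, Category.comp_id, lift_whiskerLeft, Category.id_comp]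
    rfl
  have h2 : (Δ[1] : SSet.{0}) ◁ (MonoidalClosed.curry f : X ⟶ (ihom (Δ[1] : SSet.{0})).obj Y) ≫
      (ihom.ev (Δ[1] : SSet.{0})).app Y = f :=
    (MonoidalClosed.uncurry_eq _).symm.trans (MonoidalClosed.uncurry_curry f)
  calc (MonoidalClosed.curry f : X ⟶ (ihom (Δ[1] : SSet.{0})).obj Y) ≫
        (lift (SSet.const (SSet.stdSimplex.obj₀Equiv.symm i))
          (𝟙 ((ihom (Δ[1] : SSet.{0})).obj Y)) ≫ (ihom.ev (Δ[1] : SSet.{0})).app Y)
      = (lift (SSet.const (SSet.stdSimplex.obj₀Equiv.symm i)) (𝟙 X) ≫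
        ((Δ[1] : SSet.{0}) ◁ (MonoidalClosed.curry f : X ⟶ (ihom (Δ[1] : SSet.{0})).obj Y))) ≫
          (ihom.ev (Δ[1] : SSet.{0})).app Y := by
        rw [← h1]
        exact (Category.assoc _ _ _).symm
    _ = lift (SSet.const (SSet.stdSimplex.obj₀Equiv.symm i)) (𝟙 X) ≫ f :=
        (Category.assoc _ _ _).trans (congrArg (_ ≫ ·) h2)

open Simplicial in
theorem endpoint_eq {X Y : SSet.{0}} (q : X ⟶ pathSpace Y) (i : Fin 2) :
    q ≫ endpoint Y i = lift (SSet.const (SSet.stdSimplex.obj₀Equiv.symm i)) (𝟙 X) ≫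
      (MonoidalClosed.uncurry q : (Δ[1] : SSet.{0}) ⊗ X ⟶ Y) := by
  have h := curry_endpoint (MonoidalClosed.uncurry q : (Δ[1] : SSet.{0}) ⊗ X ⟶ Y) i
  rw [← h]
  congr 1
  exact (MonoidalClosed.curry_uncurry q).symm


section truth

variable {M : Str sig} (I : Interpretation M)

/-- the map `M(g)` -/
noncomputable def gMap (M : Str sig) : M.obj TwoSorts.tot ⟶ M.obj TwoSorts.base :=
  Pi.lift (fun _ => 𝟙 (M.obj TwoSorts.tot)) ≫ M.fn ()

theorem tm_gTm {Γ : List TwoSorts} (y : Tm sig Γ TwoSorts.tot) :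
    M.tm (gTm y) = M.tm y ≫ gMap M := by
  have h : (Pi.lift (fun _ => M.tm y) : M.ctx Γ ⟶ ∏ᶜ fun _ : Fin 1 => M.obj TwoSorts.tot) =
      M.tm y ≫ Pi.lift (fun _ => 𝟙 (M.obj TwoSorts.tot)) := by
    apply Pi.hom_ext
    intro b
    simp
  calc M.tm (gTm y) = (Pi.lift (fun _ => M.tm y) :
        M.ctx Γ ⟶ ∏ᶜ fun _ : Fin 1 => M.obj TwoSorts.tot) ≫ M.fn () := rfl
    _ = (M.tm y ≫ Pi.lift (fun _ => 𝟙 (M.obj TwoSorts.tot))) ≫ M.fn () := by rw [h]
    _ = M.tm y ≫ gMap M := Category.assoc _ _ _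

/-- Choice: from the truth of `∀ x, ∃ y, g(y) = x` at the stage `D` one gets a natural operation. -/
theorem choice (D : Over (M.ctx ([] : List TwoSorts))) (h : I.F D surjG) :
    ∃ (s : (X : SSet.{0}) → (X ⟶ D.left) → (X ⟶ M.obj TwoSorts.base) → (X ⟶ M.obj TwoSorts.tot))
      (p : (X : SSet.{0}) → (X ⟶ D.left) → (X ⟶ M.obj TwoSorts.base) →
        (X ⟶ pathSpace (M.obj TwoSorts.base))),
      (∀ (X Y : SSet.{0}) (f : Y ⟶ X) (d : X ⟶ D.left) (a : X ⟶ M.obj TwoSorts.base),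
        f ≫ s X d a = s Y (f ≫ d) (f ≫ a)) ∧
      (∀ (X : SSet.{0}) (d : X ⟶ D.left) (a : X ⟶ M.obj TwoSorts.base),
        lift (s X d a ≫ gMap M) a = p X d a ≫ ends (M.obj TwoSorts.base)) := by
  unfold surjG at h
  rw [Interpretation.f_all, Interpretation.f_ex] at h
  obtain ⟨k, hk, h⟩ := h
  rw [Interpretation.f_eq] at h
  obtain ⟨p, hp⟩ := h
  let U : (X : SSet.{0}) → (X ⟶ D.left) → (X ⟶ M.obj TwoSorts.base) →
      (X ⟶ pullback D.hom (M.proj TwoSorts.base [])) := fun X d a =>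
    pullback.lift d (M.cons a (M.nil X)) (M.hom_nil _ _)
  have hU : ∀ (X Y : SSet.{0}) (f : Y ⟶ X) (d : X ⟶ D.left) (a : X ⟶ M.obj TwoSorts.base),
      f ≫ U X d a = U Y (f ≫ d) (f ≫ a) := by
    intro X Y f d a
    apply pullback.hom_ext
    · rw [Category.assoc, pullback.lift_fst, pullback.lift_fst]
    · rw [Category.assoc, pullback.lift_snd, pullback.lift_snd, M.comp_cons]
      congr 1
  have hU2 : ∀ (X : SSet.{0}) (d : X ⟶ D.left) (a : X ⟶ M.obj TwoSorts.base),
      U X d a ≫ ((Over.pullback (M.proj TwoSorts.base [])).obj D).hom =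
        M.cons a (M.nil X) := by
    intro X d a
    exact pullback.lift_snd _ _ _
  refine ⟨fun X d a => U X d a ≫ k ≫ M.tm (.var .zero), fun X d a => U X d a ≫ p, ?_, ?_⟩
  · intro X Y f d a
    change f ≫ (U X d a ≫ k ≫ M.tm (.var .zero)) = U Y (f ≫ d) (f ≫ a) ≫ k ≫ M.tm (.var .zero)
    rw [← hU]
    exact (Category.assoc _ _ _).symm
  · intro X d a
    have h2 := congrArg (fun z => U X d a ≫ z) hp
    simp only at h2
    rw [Category.assoc]
    refine Eq.trans ?_ h2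
    have h3 : (Over.mk k).hom = k := rfl
    rw [h3, comp_lift, comp_lift]
    congr 1
    · rw [tm_gTm]
      simp only [Category.assoc]
    · rw [M.tm_succ, ← Category.assoc k, hk, ← Category.assoc, hU2]
      exact (M.cons_zero _ _).symm

theorem choiceG_of_surjG (D : Over (M.ctx ([] : List TwoSorts))) (h : I.F D surjG) :
    I.F D choiceG := by
  obtain ⟨s, p, hs, hp⟩ := choice I D h
  unfold choiceG
  rw [Interpretation.f_all, Interpretation.f_all, Interpretation.f_ex]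
  -- the stage over `x, x'`
  let D2 := (Over.pullback (M.proj TwoSorts.base [TwoSorts.base])).obj
    ((Over.pullback (M.proj TwoSorts.base [])).obj D)
  let d : D2.left ⟶ D.left := pullback.fst _ _ ≫ pullback.fst _ _
  let c : D2.left ⟶ M.ctx [TwoSorts.base, TwoSorts.base] := D2.hom
  let a₁ : D2.left ⟶ M.obj TwoSorts.base := c ≫ M.tm (.var (.succ .zero))
  let a₂ : D2.left ⟶ M.obj TwoSorts.base := c ≫ M.tm (.var .zero)
  let k3 : D2.left ⟶ M.ctx [TwoSorts.tot, TwoSorts.base, TwoSorts.base] := M.cons (s _ d a₁) c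
  let k4 : D2.left ⟶ M.ctx [TwoSorts.tot, TwoSorts.tot, TwoSorts.base, TwoSorts.base] :=
    M.cons (s _ d a₂) k3
  have hy₂ : k4 ≫ M.tm (.var .zero) = s _ d a₂ := M.cons_zero _ _
  have hy₁ : k4 ≫ M.tm (.var (.succ .zero)) = s _ d a₁ := by
    rw [M.tm_succ, ← Category.assoc, M.cons_proj, M.cons_zero]
  have hx₂ : k4 ≫ M.tm (.var (.succ (.succ .zero))) = a₂ := by
    rw [M.tm_succ, ← Category.assoc, M.cons_proj, M.tm_succ, ← Category.assoc, M.cons_proj]
  have hx₁ : k4 ≫ M.tm (.var (.succ (.succ (.succ .zero)))) = a₁ := by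
    rw [M.tm_succ, ← Category.assoc, M.cons_proj, M.tm_succ, ← Category.assoc, M.cons_proj]
  refine ⟨k3, M.cons_proj _ _, ?_⟩
  rw [Interpretation.f_ex]
  refine ⟨k4, M.cons_proj _ _, ?_⟩
  rw [Interpretation.f_and, Interpretation.f_and, Interpretation.f_eq, Interpretation.f_eq,
    Interpretation.f_imp]
  refine ⟨⟨⟨p _ d a₁, ?_⟩, ⟨p _ d a₂, ?_⟩⟩, ?_⟩
  · rw [← hp, comp_lift, tm_gTm]
    congr 1
  · rw [← hp, comp_lift, tm_gTm]
    congr 1
  · -- the implication `x = x' ⇒ y = y'`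
    set E := I.obj (Fm.eq (σ := sig) (A := TwoSorts.base)
      (.var (.succ (.succ (.succ (Var.zero (Γ := []))))))
        (.var (.succ (.succ .zero)))) with hE
    have h1 : I.F (E ⨯ Over.mk k4) (Fm.eq (σ := sig) (A := TwoSorts.base)
      (.var (.succ (.succ (.succ (Var.zero (Γ := []))))))
        (.var (.succ (.succ .zero)))) := I.f_of_hom prod.fst (I.f_self _)
    rw [Interpretation.f_eq] at h1 ⊢
    obtain ⟨q, hq⟩ := h1
    let v : E ⨯ Over.mk k4 ⟶ Over.mk k4 := prod.snd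
    let v' : (E ⨯ Over.mk k4).left ⟶ D2.left := v.left
    have hv : v' ≫ k4 = (E ⨯ Over.mk k4).hom := Over.w v
    rw [← hv] at hq ⊢
    let L := (E ⨯ Over.mk k4).left
    let w : (SSet.stdSimplex.obj (SimplexCategory.mk 1) : SSet.{0}) ⊗ L ⟶ D.left :=
      snd _ _ ≫ v' ≫ d
    let r : L ⟶ pathSpace (M.obj TwoSorts.tot) :=
      MonoidalClosed.curry (s _ w (MonoidalClosed.uncurry q))
    have hr : ∀ i : Fin 2, r ≫ endpoint (M.obj TwoSorts.tot) i =
        s _ (v' ≫ d) (q ≫ endpoint (M.obj TwoSorts.base) i) := by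
      intro i
      refine (curry_endpoint (s _ w (MonoidalClosed.uncurry q)) i).trans ?_
      refine (hs _ _ _ _ _).trans ?_
      have e1 : lift (SSet.const (SSet.stdSimplex.obj₀Equiv.symm i)) (𝟙 L) ≫ w = v' ≫ d := by
        simp only [w]
        rw [← Category.assoc, lift_snd, Category.id_comp]
      have e2 := endpoint_eq q i
      rw [e2]
      exact congrArg (fun z => s L z _) e1
    have hq1 : q ≫ endpoint (M.obj TwoSorts.base) 0 = v' ≫ a₁ := by
      have := congrArg (fun z => z ≫ fst _ _) hq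
      simp only [Category.assoc, lift_fst, ends] at this
      rw [← this, hx₁]
    have hq2 : q ≫ endpoint (M.obj TwoSorts.base) 1 = v' ≫ a₂ := by
      have := congrArg (fun z => z ≫ snd _ _) hq
      simp only [Category.assoc, lift_snd, ends] at this
      rw [← this, hx₂]
    refine ⟨r, ?_⟩
    rw [Category.assoc, comp_lift, comp_lift, hy₁, hy₂, ends, comp_lift, hr, hr, hq1, hq2, hs, hs]

/-- The sentence `acSentence` is true in every structure in simplicial sets. -/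
theorem acSentence_true : I.True acSentence := by
  apply I.true_of_force
  unfold acSentence
  rw [Interpretation.f_imp]
  exact choiceG_of_surjG I _ (I.f_of_hom prod.fst (I.f_self _))

end truth

end Pool.Agent.H642R3.Hom
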