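import Mathlib
import Pool.Agent.H642R3.Hom.Kripke
import Pool.Agent.H642R3.Hom.Truth

set_option autoImplicit false

/-!
# The sentence `acSentence` is not derivable, even with excluded middle for sentences
-/

namespace Pool.Agent.H642R3.Hom

/-- carriers of the countermodel -/
def cmX : TwoSorts → Type
  | .base => ℕ
  | .tot => ℕ × ℕ

/-- the endomorphism of the countermodel -/
def cmT : (A : TwoSorts) → cmX A → cmX A
  | .base => fun (a : ℕ) => (a / 2 : ℕ)
  | .tot => fun (b : ℕ × ℕ) => ((b.1 / 2, 2 * b.2 + b.1 % 2) : ℕ × ℕ)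

/-- The countermodel: `g(a, k) = a` with the endomorphism halving the numbers `a` and acting
injectively on the pairs. -/
def cm : Alg sig where
  X := cmX
  fn := fun _ (a : Fin 1 → ℕ × ℕ) => ((a 0).1 : ℕ)
  t := cmT
  t_fn := fun _ _ => rfl

theorem cm_surj (e : cm.Env []) : cm.force surjG e := by
  intro k a
  exact ⟨((a, 0) : ℕ × ℕ), rfl⟩

theorem cm_not_choice (e : cm.Env []) : ¬ cm.force choiceG e := by
  intro h
  obtain ⟨y, y', ⟨h1, h2⟩, h3⟩ := h 0 (0 : ℕ) 0 (1 : ℕ)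
  have h1' : (y : ℕ × ℕ).1 = 0 := h1
  have h2' : (y' : ℕ × ℕ).1 = 1 := h2
  have h0 : (0 / 2 : ℕ) = 1 / 2 := rfl
  have h4 := h3 1 h0
  have h5 : (((y : ℕ × ℕ).1 / 2, 2 * (y : ℕ × ℕ).2 + (y : ℕ × ℕ).1 % 2) : ℕ × ℕ) =
    ((y' : ℕ × ℕ).1 / 2, 2 * (y' : ℕ × ℕ).2 + (y' : ℕ × ℕ).1 % 2) := h4
  rw [h1', h2'] at h5
  have h6 := congrArg Prod.snd h5
  simp only at h6
  omega

/-- The sentence `acSentence` is not derivable from instances of excluded middle for sentences. -/
theorem not_der (H : List (Sentence sig)) (hH : ∀ χ ∈ H, ∃ ψ : Sentence sig, χ = ψ.or ψ.neg) :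
    ¬ Der H acSentence := by
  intro h
  let e : cm.Env [] := fun A x => nomatch x
  have h1 := cm.sound h e (by
    intro χ hχ
    obtain ⟨ψ, rfl⟩ := hH χ hχ
    exact cm.em ψ e)
  exact cm_not_choice _ (h1 0 (cm_surj _))

end Pool.Agent.H642R3.Hom
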