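import Mathlib

set_option autoImplicit false

/-!
# Pullback of simplicial sets has a right adjoint
-/

open CategoryTheory Limits Opposite

namespace Pool.Agent.H642R3.Hom

section pb

variable {D X Y : SSet.{0}} (u : D ⟶ X) (f : Y ⟶ X)

theorem pb_isPullback (n : SimplexCategoryᵒᵖ) :
    IsPullback ((pullback.fst u f).app n) ((pullback.snd u f).app n) (u.app n) (f.app n) :=
  (IsPullback.of_hasPullback u f).map ((evaluation SimplexCategoryᵒᵖ (Type)).obj n)

theorem pb_exists (n : SimplexCategoryᵒᵖ) (a : D.obj n) (b : Y.obj n)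
    (h : u.app n a = f.app n b) :
    ∃ z : (pullback u f).obj n, (pullback.fst u f).app n z = a ∧ (pullback.snd u f).app n z = b := by
  have h1 := (Types.isPullback_iff _ _ _ _).1 (pb_isPullback u f n)
  exact h1.2.2 a b h

theorem pb_ext {n : SimplexCategoryᵒᵖ} {z z' : (pullback u f).obj n}
    (h1 : (pullback.fst u f).app n z = (pullback.fst u f).app n z')
    (h2 : (pullback.snd u f).app n z = (pullback.snd u f).app n z') : z = z' := by
  have h := (Types.isPullback_iff _ _ _ _).1 (pb_isPullback u f n)
  exact h.2.1 z z' ⟨h1, h2⟩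

/-- the simplex of the pullback with given components -/
noncomputable def pbMk (n : SimplexCategoryᵒᵖ) (a : D.obj n) (b : Y.obj n)
    (h : u.app n a = f.app n b) : (pullback u f).obj n := (pb_exists u f n a b h).choose

theorem pbMk_fst (n : SimplexCategoryᵒᵖ) (a : D.obj n) (b : Y.obj n)
    (h : u.app n a = f.app n b) : (pullback.fst u f).app n (pbMk u f n a b h) = a :=
  (pb_exists u f n a b h).choose_spec.1

theorem pbMk_snd (n : SimplexCategoryᵒᵖ) (a : D.obj n) (b : Y.obj n)
    (h : u.app n a = f.app n b) : (pullback.snd u f).app n (pbMk u f n a b h) = b :=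
  (pb_exists u f n a b h).choose_spec.2

end pb

section

variable {X Y : SSet.{0}} (f : Y ⟶ X) (P : Over Y)

/-- Partial sections of `P` over the fibre of `f` at a simplex `x`. -/
structure Sec (n : SimplexCategoryᵒᵖ) (x : X.obj n) where
  s : ∀ (m : SimplexCategoryᵒᵖ) (g : n ⟶ m) (y : Y.obj m), f.app m y = X.map g x → P.left.obj m
  w : ∀ (m : SimplexCategoryᵒᵖ) (g : n ⟶ m) (y : Y.obj m) (h : f.app m y = X.map g x),
    P.hom.app m (s m g y h) = y
  nat : ∀ (m m' : SimplexCategoryᵒᵖ) (g : n ⟶ m) (k : m ⟶ m') (y : Y.obj m)
    (h : f.app m y = X.map g x) (h' : f.app m' (Y.map k y) = X.map (g ≫ k) x),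
    P.left.map k (s m g y h) = s m' (g ≫ k) (Y.map k y) h'

/-- restriction -/
def Sec.res {n n' : SimplexCategoryᵒᵖ} {x : X.obj n} (a : Sec f P n x) (l : n ⟶ n') :
    Sec f P n' (X.map l x) where
  s := fun m g y h => a.s m (l ≫ g) y (by rw [h, Functor.map_comp_apply])
  w := fun m g y h => a.w _ _ _ _
  nat := by
    intro m m' g k y h h'
    have := a.nat m m' (l ≫ g) k y (by rw [h, Functor.map_comp_apply]) (by
      rw [h', Functor.map_comp_apply, Functor.map_comp_apply,
        Functor.map_comp_apply])
    rw [this]
    congr 1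

/-- A simplex of `X` with a partial section over the fibre. -/
structure Tot (n : SimplexCategoryᵒᵖ) where
  x : X.obj n
  sec : Sec f P n x

theorem tot_ext {n : SimplexCategoryᵒᵖ} {a b : Tot f P n} (h : a.x = b.x)
    (h' : ∀ m g y h1 h2, a.sec.s m g y h1 = b.sec.s m g y h2) : a = b := by
  obtain ⟨x, s, hs, ns⟩ := a
  obtain ⟨y, t, ht, nt⟩ := b
  dsimp only at h
  subst h
  have : s = t := by
    funext m g y h1
    exact h' m g y h1 h1
  subst this
  rfl

theorem tot_s_congr {n : SimplexCategoryᵒᵖ} {a b : Tot f P n} (h : a = b)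
    (m : SimplexCategoryᵒᵖ) (g g' : n ⟶ m) (hg : g = g') (y y' : Y.obj m) (hy : y = y')
    (h1 : f.app m y = X.map g a.x) (h2 : f.app m y' = X.map g' b.x) :
    a.sec.s m g y h1 = b.sec.s m g' y' h2 := by
  subst h hg hy
  rfl

/-- The simplicial set of partial sections. -/
def pushS : SSet.{0} where
  obj n := Tot f P n
  map l := ↾fun a => ⟨X.map l a.x, a.sec.res f P l⟩
  map_id := by
    intro n
    ext a
    apply tot_ext
    · simp
    · intro m g y h1 h2
      simp [Sec.res]
  map_comp := by
    intro n n' n'' l l'
    ext a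
    apply tot_ext
    · simp
    · intro m g y h1 h2
      simp [Sec.res]

/-- The right adjoint of pullback, on objects. -/
def push : Over X := Over.mk (Y := pushS f P) { app := fun n => ↾fun a => a.x }

variable {f P}

theorem app_comp_eq {A B C : SSet.{0}} (u : A ⟶ B) (v : B ⟶ C) (n : SimplexCategoryᵒᵖ)
    (a : A.obj n) : (u ≫ v).app n a = v.app n (u.app n a) := rfl

theorem nat_apply {A B : SSet.{0}} (u : A ⟶ B) {n m : SimplexCategoryᵒᵖ} (g : n ⟶ m)
    (a : A.obj n) : u.app m (A.map g a) = B.map g (u.app n a) :=
  NatTrans.naturality_apply u g a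

theorem toPull_aux {D : Over X} (φ : D ⟶ push f P) (m : SimplexCategoryᵒᵖ) (d : D.left.obj m) :
    (φ.left.app m d : Tot f P m).x = D.hom.app m d := by
  have := Over.w φ
  exact congrArg (fun k => k.app m d) this

theorem toPull_aux2 {D : Over X} (φ : D ⟶ push f P) (m : SimplexCategoryᵒᵖ)
    (z : (pullback D.hom f).obj m) :
    f.app m ((pullback.snd D.hom f).app m z) =
      X.map (𝟙 m) (φ.left.app m ((pullback.fst D.hom f).app m z) : Tot f P m).x := by
  rw [toPull_aux, Functor.map_id_apply]
  have := pullback.condition (f := D.hom) (g := f)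
  exact (congrArg (fun k => k.app m z) this).symm

/-- from maps to the pushforward to maps from the pullback, on simplices -/
noncomputable def toPullS {D : Over X} (φ : D ⟶ push f P) : pullback D.hom f ⟶ P.left where
  app := fun m => ↾fun (z : (pullback D.hom f).obj m) =>
    (φ.left.app m ((pullback.fst D.hom f).app m z) : Tot f P m).sec.s m (𝟙 m)
      ((pullback.snd D.hom f).app m z) (toPull_aux2 φ m z)
  naturality := by
    intro m m' k
    ext z
    change (φ.left.app m' ((pullback.fst D.hom f).app m' ((pullback D.hom f).map k z)) :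
      Tot f P m').sec.s m' (𝟙 m') ((pullback.snd D.hom f).app m' ((pullback D.hom f).map k z)) _ =
      P.left.map k ((φ.left.app m ((pullback.fst D.hom f).app m z) : Tot f P m).sec.s m (𝟙 m)
        ((pullback.snd D.hom f).app m z) (toPull_aux2 φ m z))
    rw [Sec.nat _ m m' (𝟙 m) k _ (toPull_aux2 φ m z) (by
      rw [nat_apply, toPull_aux2 φ m z]
      simp)]
    have e1 : (φ.left.app m' ((pullback.fst D.hom f).app m' ((pullback D.hom f).map k z)) :
        Tot f P m') = (pushS f P).map k (φ.left.app m ((pullback.fst D.hom f).app m z)) := by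
      rw [nat_apply, nat_apply]
      rfl
    have e2 := tot_s_congr f P e1 m' (𝟙 m') (𝟙 m') rfl _ _
      (nat_apply (pullback.snd D.hom f) k z) (toPull_aux2 φ m' _) (by
        rw [Functor.map_id_apply]
        change f.app m' _ = X.map k (φ.left.app m ((pullback.fst D.hom f).app m z) : Tot f P m).x
        rw [nat_apply, toPull_aux2 φ m z]
        simp)
    refine e2.trans ?_
    change (φ.left.app m ((pullback.fst D.hom f).app m z) : Tot f P m).sec.s m' (k ≫ 𝟙 m') _ _ = _
    congr 1

/-- from maps to the pushforward to maps from the pullback -/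
noncomputable def toPull {D : Over X} (φ : D ⟶ push f P) : (Over.pullback f).obj D ⟶ P :=
  Over.homMk (toPullS φ) (by
    ext m z
    exact Sec.w _ _ _ _ _)

theorem toPush_aux {D : Over X} {n : SimplexCategoryᵒᵖ} (d : D.left.obj n)
    {m : SimplexCategoryᵒᵖ} {g : n ⟶ m} {y : Y.obj m}
    (h : f.app m y = X.map g (D.hom.app n d)) : D.hom.app m (D.left.map g d) = f.app m y := by
  rw [h, nat_apply]

/-- from maps from the pullback to maps to the pushforward, on simplices -/
noncomputable def toPushS {D : Over X} (ψ : pullback D.hom f ⟶ P.left)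
    (hψ : ψ ≫ P.hom = pullback.snd D.hom f) : D.left ⟶ pushS f P where
  app := fun n => ↾fun d =>
    { x := D.hom.app n d
      sec :=
        { s := fun m g y h => ψ.app m (pbMk D.hom f m (D.left.map g d) y (toPush_aux d h))
          w := by
            intro m g y h
            have := congrArg (fun k => k.app m (pbMk D.hom f m (D.left.map g d) y
              (toPush_aux d h))) hψ
            refine Eq.trans this ?_
            exact pbMk_snd _ _ _ _ _ _
          nat := by
            intro m m' g k y h h'
            rw [← nat_apply]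
            congr 1
            apply pb_ext
            · rw [pbMk_fst, nat_apply, pbMk_fst]
              simp
            · rw [pbMk_snd, nat_apply, pbMk_snd] } }
  naturality := by
    intro n n' l
    ext d
    apply tot_ext
    · exact nat_apply D.hom l d
    · intro m g y h1 h2
      change ψ.app m _ = ψ.app m _
      congr 1
      apply pb_ext
      · rw [pbMk_fst, pbMk_fst]
        simp
        rfl
      · rw [pbMk_snd, pbMk_snd]

/-- from maps from the pullback to maps to the pushforward -/
noncomputable def toPush {D : Over X} (ψ : (Over.pullback f).obj D ⟶ P) : D ⟶ push f P :=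
  Over.homMk (toPushS ψ.left (Over.w ψ)) (by
    ext m z
    rfl)

theorem toPush_toPull {D : Over X} (φ : D ⟶ push f P) : toPush (toPull φ) = φ := by
  ext m d
  apply tot_ext
  · exact (toPull_aux φ m d).symm
  · intro n g y h1 h2
    change (φ.left.app n ((pullback.fst D.hom f).app n (pbMk D.hom f n (D.left.map g d) y _)) :
      Tot f P n).sec.s n (𝟙 n) ((pullback.snd D.hom f).app n _) _ =
        (φ.left.app m d : Tot f P m).sec.s n g y h2
    have e1 : (φ.left.app n ((pullback.fst D.hom f).app n (pbMk D.hom f n (D.left.map g d) y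
        (toPush_aux d (by rw [h1]; rfl)))) : Tot f P n) = (pushS f P).map g (φ.left.app m d) := by
      rw [pbMk_fst, nat_apply]
      rfl
    have e2 := tot_s_congr f P e1 n (𝟙 n) (𝟙 n) rfl _ y (pbMk_snd D.hom f n (D.left.map g d) y
        (toPush_aux d (by rw [h1]; rfl))) (toPull_aux2 φ n _) (by
          rw [Functor.map_id_apply]
          exact h2)
    refine e2.trans ?_
    change (φ.left.app m d : Tot f P m).sec.s n (g ≫ 𝟙 n) y _ = _
    congr 1
    simp

theorem toPull_toPush {D : Over X} (ψ : (Over.pullback f).obj D ⟶ P) :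
    toPull (toPush ψ) = ψ := by
  ext m z
  change ψ.left.app m (pbMk D.hom f m (D.left.map (𝟙 m) ((pullback.fst D.hom f).app m z))
    ((pullback.snd D.hom f).app m z) _) = ψ.left.app m z
  congr 1
  apply pb_ext
  · rw [pbMk_fst]
    simp
  · rw [pbMk_snd]

theorem toPull_comp {D D' : Over X} (u : D' ⟶ D) (φ : D ⟶ push f P) :
    toPull (u ≫ φ) = (Over.pullback f).map u ≫ toPull φ := by
  ext m z
  have h1 : (pullback.fst D.hom f).app m (((Over.pullback f).map u).left.app m z) =
      u.left.app m ((pullback.fst D'.hom f).app m z) := by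
    have : ((Over.pullback f).map u).left ≫ pullback.fst D.hom f =
      pullback.fst D'.hom f ≫ u.left := pullback.lift_fst _ _ _
    exact congrArg (fun k => k.app m z) this
  have h2 : (pullback.snd D.hom f).app m (((Over.pullback f).map u).left.app m z) =
      (pullback.snd D'.hom f).app m z := by
    have : ((Over.pullback f).map u).left ≫ pullback.snd D.hom f =
      pullback.snd D'.hom f := pullback.lift_snd _ _ _
    exact congrArg (fun k => k.app m z) this
  refine tot_s_congr f P ?_ m (𝟙 m) (𝟙 m) rfl _ _ h2.symm (toPull_aux2 (u ≫ φ) m z)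
    (toPull_aux2 φ m _)
  rw [h1]
  rfl

/-- The pushforward represents maps from pullbacks. -/
noncomputable def pushRep : ((Over.pullback f).op ⋙ yoneda.obj P).RepresentableBy (push f P) where
  homEquiv :=
    { toFun := toPull
      invFun := toPush
      left_inv := toPush_toPull
      right_inv := toPull_toPush }
  homEquiv_comp := fun u φ => toPull_comp u φ

end

end Pool.Agent.H642R3.Hom
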