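import Mathlib
import Pool.Agent.H642R3.Hom.Push
import Pool.Agent.H642R3.Hom.Sem

set_option autoImplicit false

/-!
# Existence of the homotopical interpretation
-/

open CategoryTheory Limits Opposite

namespace Pool.Agent.H642R3.Hom

section exp

variable {X : SSet.{0}} (P Q : Over X)

/-- the product of `P` and `D`, as a pullback -/
noncomputable abbrev prd (D : Over X) : Over X := (Over.map P.hom).obj ((Over.pullback P.hom).obj D)

noncomputable def prdFst (D : Over X) : prd P D ⟶ P := Over.homMk (pullback.snd D.hom P.hom) rfl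

noncomputable def prdSnd (D : Over X) : prd P D ⟶ D :=
  Over.homMk (pullback.fst D.hom P.hom) pullback.condition

noncomputable def prdLimit (D : Over X) : IsLimit (BinaryFan.mk (prdFst P D) (prdSnd P D)) :=
  BinaryFan.IsLimit.mk _
    (fun {T} u v => Over.homMk (pullback.lift v.left u.left (by
      rw [Over.w u, Over.w v])) (by
        change pullback.lift v.left u.left _ ≫ pullback.snd D.hom P.hom ≫ P.hom = T.hom
        rw [pullback.lift_snd_assoc, Over.w u]))
    (fun {T} u v => by
      ext1
      exact pullback.lift_snd _ _ _)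
    (fun {T} u v => by
      ext1
      exact pullback.lift_fst _ _ _)
    (fun {T} u v m h1 h2 => by
      ext1
      apply pullback.hom_ext
      · refine Eq.trans ?_ (pullback.lift_fst _ _ _).symm
        exact congrArg (fun k => k.left) h2
      · refine Eq.trans ?_ (pullback.lift_snd _ _ _).symm
        exact congrArg (fun k => k.left) h1)

noncomputable def prdIso (D : Over X) : (P ⨯ D) ≅ prd P D :=
  (prodIsProd P D).conePointUniqueUpToIso (prdLimit P D)

theorem prdIso_fst (D : Over X) : (prdIso P D).hom ≫ prdFst P D = prod.fst :=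
  (prodIsProd P D).conePointUniqueUpToIso_hom_comp (prdLimit P D) ⟨WalkingPair.left⟩

theorem prdIso_snd (D : Over X) : (prdIso P D).hom ≫ prdSnd P D = prod.snd :=
  (prodIsProd P D).conePointUniqueUpToIso_hom_comp (prdLimit P D) ⟨WalkingPair.right⟩

noncomputable def prdMap {D D' : Over X} (u : D' ⟶ D) : prd P D' ⟶ prd P D :=
  (Over.map P.hom).map ((Over.pullback P.hom).map u)

theorem prdMap_fst {D D' : Over X} (u : D' ⟶ D) : prdMap P u ≫ prdFst P D = prdFst P D' := by
  ext1
  exact pullback.lift_snd _ _ _

theorem prdMap_snd {D D' : Over X} (u : D' ⟶ D) : prdMap P u ≫ prdSnd P D = prdSnd P D' ≫ u := by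
  ext1
  exact pullback.lift_fst _ _ _

theorem prdIso_nat {D D' : Over X} (u : D' ⟶ D) :
    (prdIso P D').hom ≫ prdMap P u = prod.map (𝟙 P) u ≫ (prdIso P D).hom := by
  apply BinaryFan.IsLimit.hom_ext (prdLimit P D)
  · change ((prdIso P D').hom ≫ prdMap P u) ≫ prdFst P D =
      (prod.map (𝟙 P) u ≫ (prdIso P D).hom) ≫ prdFst P D
    rw [Category.assoc, Category.assoc, prdMap_fst, prdIso_fst, prdIso_fst]
    simp
  · change ((prdIso P D').hom ≫ prdMap P u) ≫ prdSnd P D =
      (prod.map (𝟙 P) u ≫ (prdIso P D).hom) ≫ prdSnd P D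
    rw [Category.assoc, Category.assoc, prdMap_snd, ← Category.assoc, prdIso_snd, prdIso_snd]
    simp

/-- The exponential of the slice category. -/
noncomputable def expRep : ((prod.functor.obj P).op ⋙ yoneda.obj Q).RepresentableBy
    (push P.hom ((Over.pullback P.hom).obj Q)) where
  homEquiv := fun {D} =>
    (pushRep.homEquiv (X := D)).trans
      ((((Over.mapPullbackAdj P.hom).homEquiv _ _).symm).trans
        ((prdIso P D).homCongr (Iso.refl Q)).symm)
  homEquiv_comp := by
    intro D' D u φ
    simp only [Equiv.trans_apply]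
    rw [pushRep.homEquiv_comp]
    have key : ∀ (v : prd P D ⟶ Q), (prdIso P D').hom ≫ (prdMap P u ≫ v) ≫ 𝟙 Q =
        prod.map (𝟙 P) u ≫ ((prdIso P D).hom ≫ v ≫ 𝟙 Q) := by
      intro v
      rw [Category.comp_id, Category.comp_id, ← Category.assoc, prdIso_nat, Category.assoc]
    have h1 := (Over.mapPullbackAdj P.hom).homEquiv_naturality_left_symm
      ((Over.pullback P.hom).map u) (pushRep.homEquiv φ)
    exact (congrArg (fun v : prd P D' ⟶ Q => (prdIso P D').hom ≫ v ≫ 𝟙 Q) h1).trans
      (key _)

end exp

section interp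

open MonoidalCategory CartesianMonoidalCategory

variable {σ : Signature} (M : Str σ)

/-- the empty simplicial set -/
def emptyS : SSet.{0} where
  obj _ := PEmpty
  map _ := 𝟙 _
  map_id _ := rfl
  map_comp _ _ := rfl

/-- the empty simplicial set over `X` -/
def emptyOver (X : SSet.{0}) : Over X :=
  Over.mk (Y := emptyS)
    { app := fun _ => ↾fun a => PEmpty.elim a
      naturality := by
        intro n m g
        ext a
        exact PEmpty.elim a }

/-- The interpretation of formulas by recursion. -/
noncomputable def interp : {Γ : List σ.Srt} → Fm σ Γ → Over (M.ctx Γ)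
  | Γ, .top => Over.mk (𝟙 (M.ctx Γ))
  | Γ, .bot => emptyOver (M.ctx Γ)
  | _, .eq (A := A) s t => Over.mk (pullback.fst (lift (M.tm s) (M.tm t)) (ends (M.obj A)))
  | _, .and φ ψ => interp φ ⨯ interp ψ
  | _, .or φ ψ => interp φ ⨿ interp ψ
  | _, .imp φ ψ => push (interp φ).hom ((Over.pullback (interp φ).hom).obj (interp ψ))
  | Γ, .all A φ => push (M.proj A Γ) (interp φ)
  | Γ, .ex A φ => (Over.map (M.proj A Γ)).obj (interp φ)

/-- Every structure has a homotopical interpretation. -/
noncomputable def theInterpretation : Interpretation M where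
  obj := interp M
  top := fun Γ => ⟨Iso.refl _⟩
  bot := fun Γ n => inferInstanceAs (IsEmpty PEmpty)
  and := fun φ ψ => ⟨prod.fst, prod.snd, ⟨prodIsProd _ _⟩⟩
  or := fun φ ψ => ⟨coprod.inl, coprod.inr, ⟨coprodIsCoprod _ _⟩⟩
  imp := fun φ ψ => ⟨expRep (interp M φ) (interp M ψ)⟩
  all := fun A φ => ⟨pushRep⟩
  ex := fun {Γ} A φ => ⟨{
    homEquiv := fun {D} => (Over.mapPullbackAdj (M.proj A Γ)).homEquiv (interp M φ) D
    homEquiv_comp := by
      intro D D' f g
      exact (Over.mapPullbackAdj (M.proj A Γ)).homEquiv_naturality_right _ _ }⟩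
  eq := fun {Γ} {A} s t => ⟨pullback.snd _ _, IsPullback.of_hasPullback _ _⟩

end interp

end Pool.Agent.H642R3.Hom
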